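import Pool.Agent.W169.HF.Defs
import Pool.Agent.Helper114.RMT

/-! de Bruijn's theorem for the class `Cl b` from its pieces. -/

set_option autoImplicit false

open Complex MeasureTheory Filter Topology Set
open scoped ComplexConjugate

namespace Pool.Agent.W577.HF

open Pool.Agent.W169.HF

theorem hs_zero_time (f : ℂ → ℂ) : hs 0 f = f := by
  funext z
  unfold hs
  rw [tsum_eq_single 0]
  · simp
  · intro k hk
    simp [zero_pow hk]

theorem hs_zero_fun (t : ℝ) (g : ℂ → ℂ) (hg : ∀ z, g z = 0) : ∀ z, hs t g z = 0 := by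
  intro z
  have : g = fun _ => 0 := funext hg
  unfold hs
  rw [this]
  have h0 : ∀ k : ℕ, ((t ^ k / (k.factorial : ℝ) : ℝ) : ℂ) *
      iteratedDeriv (2 * k) (fun _ : ℂ => (0 : ℂ)) z = 0 := by
    intro k
    rw [iteratedDeriv_const]
    split_ifs <;> simp
  simp only [h0, tsum_zero]

theorem hs_ne (h2 : S_SG) (f : ℂ → ℂ) (hf : Slow f) (hne : ∃ z, f z ≠ 0) (t : ℝ) :
    ∃ z, hs t f z ≠ 0 := by
  by_contra hcon
  push Not at hcon
  obtain ⟨z, hz⟩ := hne
  apply hz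
  have h := h2 f hf (-t) t
  rw [neg_add_cancel, hs_zero_time] at h
  rw [← h]
  exact hs_zero_fun _ _ hcon z

theorem fe_heat (f : ℂ → ℂ) (hf : Fe f) (t : ℝ) : Fe (heat t f) := by
  obtain ⟨ε, hε, h⟩ := hf
  refine ⟨ε, hε, fun s => ?_⟩
  unfold heat
  rw [map_mul, conj_ofReal, ← integral_conj]
  have e1 : ∀ v : ℝ, ((Real.exp (-v ^ 2) : ℝ) : ℂ) * f (s + ((2 * Real.sqrt t * v : ℝ) : ℂ)) =
      ε * conj (((Real.exp (-v ^ 2) : ℝ) : ℂ) *
        f (1 - conj s + ((2 * Real.sqrt t * (-v) : ℝ) : ℂ))) := by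
    intro v
    rw [h (s + ((2 * Real.sqrt t * v : ℝ) : ℂ)), map_mul, conj_ofReal, map_add, conj_ofReal]
    rw [show (1 : ℂ) - (conj s + ((2 * Real.sqrt t * v : ℝ) : ℂ)) =
      1 - conj s + ((2 * Real.sqrt t * (-v) : ℝ) : ℂ) by push_cast; ring]
    ring
  rw [integral_congr_ae (Eventually.of_forall e1), integral_const_mul]
  have e2 : ∫ v : ℝ, conj (((Real.exp (-v ^ 2) : ℝ) : ℂ) *
        f (1 - conj s + ((2 * Real.sqrt t * (-v) : ℝ) : ℂ))) =
      ∫ v : ℝ, conj (((Real.exp (-v ^ 2) : ℝ) : ℂ) *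
        f (1 - conj s + ((2 * Real.sqrt t * v : ℝ) : ℂ))) := by
    rw [← integral_neg_eq_self (fun v : ℝ => conj (((Real.exp (-v ^ 2) : ℝ) : ℂ) *
        f (1 - conj s + ((2 * Real.sqrt t * v : ℝ) : ℂ))))]
    simp only [neg_sq]
  rw [e2]
  ring

theorem step_zero (α : ℝ) (f : ℂ → ℂ) (hf : ∀ z, f z = 0) : ∀ z, step α f z = 0 := by
  intro z
  have : f = fun _ => 0 := funext hf
  unfold step
  rw [this, iteratedDeriv_const]
  split_ifs <;> simp

theorem iter_cl (h5 : S_STEP) (b : ℝ) (f : ℂ → ℂ) (hf : Cl b f) (α : ℝ) (hα : 0 ≤ α) (n : ℕ) :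
    (∀ z, ((step α)^[n] f) z = 0) ∨ Cl b ((step α)^[n] f) := by
  induction n with
  | zero => exact Or.inr hf
  | succ n ih =>
    rw [Function.iterate_succ_apply']
    by_cases h0 : ∀ z, ((step α)^[n] f) z = 0
    · exact Or.inl (step_zero α _ h0)
    · rcases ih with h | h
      · exact absurd h h0
      · push Not at h0
        exact h5 b _ h h0 α hα

theorem zeros (h1 : S_HS) (h2 : S_SG) (h4 : S_LIM) (h5 : S_STEP) (b : ℝ) (f : ℂ → ℂ)
    (hf : Cl b f) (hne : ∃ z, f z ≠ 0) (t : ℝ) (ht : 0 ≤ t) (s : ℂ) (hs0 : hs t f s = 0) :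
    s.re ≤ 1 / 2 + b := by
  by_contra hcon
  push Not at hcon
  obtain ⟨z1, hz1⟩ := hs_ne h2 f hf.slow hne t
  have hlim := h4 f hf.slow t ht
  set F : ℕ → ℂ → ℂ := fun (n : ℕ) (z : ℂ) => ((step (t / ((n : ℝ) + 1)))^[n + 1] f) z with hF
  have hpt : Tendsto (fun n => F n z1) atTop (𝓝 (hs t f z1)) :=
    (tendstoLocallyUniformlyOn_univ.2 hlim).tendsto_at (mem_univ z1)
  have hev : ∀ᶠ n in atTop, F n z1 ≠ 0 := hpt.eventually_ne hz1
  obtain ⟨N, hN⟩ := eventually_atTop.1 hev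
  have hcl : ∀ n ≥ N, Cl b (F n) := by
    intro n hn
    rcases iter_cl h5 b f hf (t / ((n : ℝ) + 1)) (by positivity) (n + 1) with h | h
    · exact absurd (h z1) (hN n hn)
    · exact h
  have hV : IsOpen {z : ℂ | 1 / 2 + b < z.re} := isOpen_lt continuous_const Complex.continuous_re
  have hlim' : TendstoLocallyUniformlyOn (fun n => F (n + N)) (hs t f) atTop
      {z : ℂ | 1 / 2 + b < z.re} := by
    rw [Metric.tendstoLocallyUniformlyOn_iff]
    intro ε hε x _
    obtain ⟨U, hU, hn⟩ := Metric.tendstoLocallyUniformly_iff.1 hlim ε hε x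
    exact ⟨U, mem_nhdsWithin_of_mem_nhds hU, (tendsto_add_atTop_nat N).eventually hn⟩
  have hev0 := Pool.Agent.Helper114.RMT.hurwitz hV
    (fun n => ((hcl (n + N) (by omega)).slow.1).differentiableOn) hlim'
    (fun n z hz h0 => absurd ((hcl (n + N) (by omega)).zer z h0) (not_le.2 hz)) hcon hs0
  have hdiff : Differentiable ℂ (hs t f) := (h1 f hf.slow t).2.1.1
  have han : AnalyticOnNhd ℂ (hs t f) univ := fun z _ => hdiff.analyticAt z
  have := han.eqOn_zero_of_preconnected_of_eventuallyEq_zero isPreconnected_univ (mem_univ s) hev0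
  exact hz1 (this (mem_univ z1))

theorem db_of (h1 : S_HS) (h2 : S_SG) (h3 : S_HEAT) (h4 : S_LIM) (h5 : S_STEP) :
    S_DB ∧ S_MONO := by
  have hDB : S_DB := by
    intro b f hf hne t ht
    have he := h3 f hf.slow t ht
    refine ⟨?_, ⟨?_, ?_, ?_⟩⟩
    · rw [he]; exact hs_ne h2 f hf.slow hne t
    · rw [he]; exact (h1 f hf.slow t).2.1
    · exact fe_heat f hf.fe t
    · rw [he]; exact zeros h1 h2 h4 h5 b f hf hne t ht
  refine ⟨hDB, ?_⟩
  intro f hf hfe hne t0 t ht0 htt hz s hs0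
  have he0 := h3 f hf t0 ht0
  have het := h3 f hf t (ht0.trans htt)
  have hCl : Cl 0 (heat t0 f) := by
    refine ⟨?_, fe_heat f hfe t0, fun s hs => ?_⟩
    · rw [he0]; exact (h1 f hf t0).2.1
    · rw [hz s hs]; norm_num
  have hne0 : ∃ z, heat t0 f z ≠ 0 := by rw [he0]; exact hs_ne h2 f hf hne t0
  have key := (hDB 0 (heat t0 f) hCl hne0 (t - t0) (by linarith)).2
  have hid : heat (t - t0) (heat t0 f) = heat t f := by
    rw [h3 _ hCl.slow (t - t0) (by linarith), he0, h2 f hf (t - t0) t0, het, sub_add_cancel]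
  rw [hid] at key
  have a1 := key.zer s hs0
  obtain ⟨ε, hε, hfe'⟩ := fe_heat f hfe t
  have h7 : heat t f (1 - conj s) = 0 := by
    have h8 := hfe' s
    rw [hs0] at h8
    have hε0 : ε ≠ 0 := by rintro rfl; simp at hε
    have h9 : conj (heat t f (1 - conj s)) = 0 := by
      rcases mul_eq_zero.1 h8.symm with h | h
      · exact absurd h hε0
      · exact h
    exact (map_eq_zero _).1 h9
  have a2 := key.zer _ h7
  simp only [sub_re, one_re, conj_re] at a2
  linarith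

end Pool.Agent.W577.HF
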